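import Pool.Agent.helper43.KG.Spec
import Pool.Agent.helper75.BM.Strict

/-!
# Row FIN: the final statement
-/

set_option autoImplicit false

namespace Pool.Agent.helper43.KG

open Finset MeasureTheory ProbabilityTheory
open scoped ENNReal Pointwise
open Pool.Agent.helper75.BM (nrm L dBM)

private lemma FIN_log {x g lam : ℝ} {d : ℕ} (hx : 1 ≤ x) (hg : 0 < g) (hlam : 0 < lam) (hd : 1 ≤ d)
    (h : g * (d : ℝ) ^ (1 + x / 2) ≤ (lam * d) ^ x) :
    1 / x * Real.log g + (1 / x - 1 / 2) * Real.log d ≤ Real.log lam := by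
  have hd0 : (0 : ℝ) < d := by
    have : 0 < d := hd
    exact_mod_cast this
  have hx0 : 0 < x := by linarith
  have h1 := Real.log_le_log (by positivity) h
  rw [Real.log_mul hg.ne' (by positivity), Real.log_rpow hd0, Real.log_rpow (by positivity),
    Real.log_mul hlam.ne' hd0.ne'] at h1
  have h2 : x * (1 / x * Real.log g + (1 / x - 1 / 2) * Real.log d) ≤ x * Real.log lam := by
    have e1 : x * (1 / x * Real.log g + (1 / x - 1 / 2) * Real.log d) =
        Real.log g + (1 - x / 2) * Real.log d := by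
      field_simp
    rw [e1]
    linarith
  exact le_of_mul_le_mul_left h2 hx0

theorem t_fin (hm : MAI) (ha : RDA) (hb : RDB) (hg : MOM) (hu : GUP) : FIN := by
  intro p q hp hq hp2 hq2
  have hptop : p ≠ ⊤ := (hp2.trans ENNReal.ofNat_lt_top).ne
  have hP1 : 1 ≤ p.toReal := Pool.Agent.helper75.BM.toReal_ge (p := p) hptop
  have hP2 : p.toReal < 2 := by
    have := (ENNReal.toReal_lt_toReal hptop (by simp : (2 : ℝ≥0∞) ≠ ⊤)).2 hp2
    simpa using this
  have ep : (1 / p).toReal = 1 / p.toReal := by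
    rw [ENNReal.toReal_div, ENNReal.toReal_one]
  set s := (1 / q).toReal with hs
  have hs0 : 0 ≤ s := ENNReal.toReal_nonneg
  have hs2 : s < 1 / 2 := by
    by_cases hqt : q = ⊤
    · rw [hs, hqt]
      simp
    · have h1 : (2 : ℝ) < q.toReal := by
        have := (ENNReal.toReal_lt_toReal (by simp : (2 : ℝ≥0∞) ≠ ⊤) hqt).2 hq2
        simpa using this
      rw [hs, ENNReal.toReal_div, ENNReal.toReal_one]
      exact one_div_lt_one_div_of_lt two_pos h1
  have h1s : 0 < 1 - s := by linarith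
  set r := (1 - s)⁻¹ with hr
  have hr1 : 1 ≤ r := by
    rw [hr, one_le_inv₀ h1s]
    linarith
  have hr2 : r < 2 := by
    rw [hr, inv_lt_comm₀ h1s two_pos]
    linarith
  have er : 1 / r = 1 - s := by
    rw [hr, one_div, inv_inv]
  obtain ⟨δ₁, hδ₁, d₁, h1⟩ := hm p.toReal r hP1 hP2 hr1 hr2
  obtain ⟨δ₂, hδ₂, d₂, h2⟩ := hm r p.toReal hr1 hr2 hP1 hP2
  have hgP : 0 < gam p.toReal := (hu p.toReal hP1 hP2.le).2.2
  have hgr : 0 < gam r := (hu r hr1 hr2.le).2.2
  have eP := (hg p.toReal (by linarith)).1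
  have erg := (hg r (by linarith)).1
  have hlP : 0 < Real.log (gam p.toReal + δ₁) - Real.log (gam p.toReal) := by
    have := Real.log_lt_log hgP (lt_add_of_pos_right (gam p.toReal) hδ₁)
    linarith
  have hlr : 0 < Real.log (gam r + δ₂) - Real.log (gam r) := by
    have := Real.log_lt_log hgr (lt_add_of_pos_right (gam r) hδ₂)
    linarith
  refine ⟨min (1 / p.toReal * (Real.log (gam p.toReal + δ₁) - Real.log (gam p.toReal)))
    (1 / r * (Real.log (gam r + δ₂) - Real.log (gam r))), by positivity,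
    max (max d₁ d₂) 2, fun d hd => ?_⟩
  have hd1 : d₁ ≤ d := le_trans (le_trans (le_max_left _ _) (le_max_left _ _)) hd
  have hd2 : d₂ ≤ d := le_trans (le_trans (le_max_right _ _) (le_max_left _ _)) hd
  have hd3 : 2 ≤ d := le_trans (le_max_right _ _) hd
  have hij : (⟨0, by omega⟩ : Fin d) ≠ ⟨1, by omega⟩ := by
    intro h
    simp at h
  obtain ⟨K, hK, _⟩ := Pool.Agent.helper75.BM.exists_adm _ _ hp2 hq2 hij
  have hne : {l : ℝ | ∃ lam : ℝ, 0 < lam ∧ l = Real.log lam ∧
      ∃ f : (Fin d → ℝ) ≃ᵃ[ℝ] (Fin d → ℝ), f '' (L d q) ⊆ (L d p) ∧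
        (L d p) ⊆ lam • (f '' (L d q))}.Nonempty :=
    ⟨Real.log K, K, hK.1, rfl, hK.2⟩
  rw [← eP, ← erg, ep]
  constructor
  · unfold Pool.Agent.helper75.BM.dBM
    apply le_csInf hne
    rintro _ ⟨lam, hlam, rfl, hf⟩
    obtain ⟨A, hA1, hA2⟩ := Pool.Agent.helper75.BM.exists_linear (p := p) (q := q) ⟨hlam, hf⟩
    obtain ⟨T, hT1, hT2⟩ := ha d p q lam A (by omega) hp2 hq2 hlam hA1 hA2
    obtain ⟨X, hX⟩ := h1 d hd1 T hT1
    have h3 := FIN_log hP1 (by positivity : 0 < gam p.toReal + δ₁) hlam (by omega)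
      (hX.trans (hT2 X))
    have h4 := min_le_left (1 / p.toReal * (Real.log (gam p.toReal + δ₁) -
      Real.log (gam p.toReal))) (1 / r * (Real.log (gam r + δ₂) - Real.log (gam r)))
    linarith
  · unfold Pool.Agent.helper75.BM.dBM
    apply le_csInf hne
    rintro _ ⟨lam, hlam, rfl, hf⟩
    obtain ⟨A, hA1, hA2⟩ := Pool.Agent.helper75.BM.exists_linear (p := p) (q := q) ⟨hlam, hf⟩
    obtain ⟨T, hT1, hT2⟩ := hb d p q lam A (by omega) hp2 hq2 hlam hA1 hA2
    obtain ⟨X, hX⟩ := h2 d hd2 T hT1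
    have h3 := FIN_log hr1 (by positivity : 0 < gam r + δ₂) hlam (by omega)
      (hX.trans (hT2 X))
    have h4 := min_le_right (1 / p.toReal * (Real.log (gam p.toReal + δ₁) -
      Real.log (gam p.toReal))) (1 / r * (Real.log (gam r + δ₂) - Real.log (gam r)))
    rw [er] at h3 h4 ⊢
    linarith

end Pool.Agent.helper43.KG
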